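import Pool.Agent.Q264.VM.Final

/-! # Vinogradov's system in `s` pairs of variables, `s` up to `1.2247 k`: few non-diagonal solutions -/

set_option autoImplicit false

namespace Pool.Agent.Results.MP_e21eee_nt.LatticePotential

open scoped Classical in
/-- Let `k < s` and `d = s - k`. Then:
1. if `s ≤ 2 k`, the number of non-diagonal solutions in `[1,N]` of Vinogradov's system of degree `k` in `s` pairs
of variables is `O(N^(√(2d(s+k+1)+1) + d - 1 + ε))` for every `ε > 0`;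
2. if `2 d (s + k + 1) + 1 < k²`, the number of all solutions is `s! N^s + O(N^(s-1))`;
3. if `2 d (s + k + 1) + 1 < (k+1)²`, the number of all solutions is `O(N^s)`;
4. the condition of 2 holds if `5 d ≤ k` and `k ≥ 6`. -/
theorem result (s k : ℕ) (hks : k < s) :
    (s ≤ 2 * k → ∀ ε : ℝ, 0 < ε → ∃ C : ℝ, ∀ N : ℕ, 1 ≤ N →
      ((((Fintype.piFinset fun _ : Fin s => Finset.Icc 1 N) ×ˢ
          (Fintype.piFinset fun _ : Fin s => Finset.Icc 1 N)).filter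
          (fun p : (Fin s → ℕ) × (Fin s → ℕ) =>
            (∀ j : Fin k, ∑ i : Fin s, p.1 i ^ (j.val + 1) = ∑ i : Fin s, p.2 i ^ (j.val + 1)) ∧
            ¬ ∃ σ : Equiv.Perm (Fin s), p.2 = p.1 ∘ σ)).card : ℝ)
        ≤ C * (N : ℝ) ^
          (Real.sqrt (2 * ((s : ℝ) - k) * ((s : ℝ) + k + 1) + 1) + ((s : ℝ) - k - 1) + ε)) ∧
    (2 * (s - k) * (s + k + 1) + 1 < k ^ 2 → ∃ C : ℝ, ∀ N : ℕ, 1 ≤ N →
      |((((Fintype.piFinset fun _ : Fin s => Finset.Icc 1 N) ×ˢ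
          (Fintype.piFinset fun _ : Fin s => Finset.Icc 1 N)).filter
          (fun p : (Fin s → ℕ) × (Fin s → ℕ) =>
            ∀ j : Fin k, ∑ i : Fin s, p.1 i ^ (j.val + 1) = ∑ i : Fin s, p.2 i ^ (j.val + 1))).card : ℝ)
          - (s.factorial : ℝ) * (N : ℝ) ^ s| ≤ C * (N : ℝ) ^ (s - 1)) ∧
    (2 * (s - k) * (s + k + 1) + 1 < (k + 1) ^ 2 → ∃ C : ℝ, ∀ N : ℕ, 1 ≤ N →
      ((((Fintype.piFinset fun _ : Fin s => Finset.Icc 1 N) ×ˢ
          (Fintype.piFinset fun _ : Fin s => Finset.Icc 1 N)).filter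
          (fun p : (Fin s → ℕ) × (Fin s → ℕ) =>
            ∀ j : Fin k, ∑ i : Fin s, p.1 i ^ (j.val + 1) = ∑ i : Fin s, p.2 i ^ (j.val + 1))).card : ℝ)
        ≤ C * (N : ℝ) ^ s) ∧
    (5 * (s - k) ≤ k → 6 ≤ k → 2 * (s - k) * (s + k + 1) + 1 < k ^ 2) := by
  have hs2 : 2 * (s - k) * (s + k + 1) + 1 < (k + 1) ^ 2 → s ≤ 2 * k := by
    intro h
    by_contra hcon
    push Not at hcon
    have h1 : (2 * (k + 1)) * (k + 1) ≤ 2 * (s - k) * (s + k + 1) :=
      Nat.mul_le_mul (by omega) (by omega)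
    nlinarith
  have hs1 : 2 * (s - k) * (s + k + 1) + 1 < k ^ 2 → s ≤ 2 * k := by
    intro h
    apply hs2
    nlinarith
  refine ⟨fun h2 ε hε => ?_, fun h => ?_, fun h => ?_, fun h5 h6 => ?_⟩
  · obtain ⟨C, -, hC⟩ := Pool.Agent.Q264.VM.nondiag s k hks h2 ε hε
    refine ⟨C, fun N hN => ?_⟩
    have h1 := hC N hN
    rw [Pool.Agent.W89.VP.VN, Pool.Agent.W89.VP.VS, Finset.filter_filter] at h1
    convert h1 using 1
  · obtain ⟨C, hC⟩ := Pool.Agent.Q264.VM.asym s k hks (hs1 h) h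
    refine ⟨C, fun N hN => ?_⟩
    have h2 := hC N hN
    rw [Pool.Agent.W89.VP.VS] at h2
    convert h2 using 1
  · obtain ⟨C, hC⟩ := Pool.Agent.Q264.VM.upper s k hks (hs2 h) h
    refine ⟨C, fun N hN => ?_⟩
    have h2 := hC N hN
    rw [Pool.Agent.W89.VP.VS] at h2
    convert h2 using 1
  · obtain ⟨d, rfl⟩ : ∃ d, s = k + d := ⟨s - k, by omega⟩
    rw [Nat.add_sub_cancel_left] at h5 ⊢
    have h7 : 5 * (5 * (2 * d * (k + d + k + 1) + 1)) < 5 * (5 * k ^ 2) := by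
      have e1 : 5 * (5 * (2 * d * (k + d + k + 1) + 1)) =
          2 * (5 * d) * (10 * k + 5 * d + 5) + 25 := by ring
      rw [e1]
      have e2 : 2 * (5 * d) * (10 * k + 5 * d + 5) ≤ 2 * k * (10 * k + k + 5) :=
        Nat.mul_le_mul (by omega) (by omega)
      nlinarith
    omega

end Pool.Agent.Results.MP_e21eee_nt.LatticePotential
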